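import Pool.Agent.Q211.Heller.LFin

open MeasureTheory ProbabilityTheory
open Pool.Agent.Q211.Heller

namespace Pool.Agent.Results.MP_d5803c_pr.Counterexample

/-- A two-valued random sequence whose stochastic module `L = A / J` is finite-dimensional but
which is not, in law, a function of a Markov process of finite rank. -/
theorem result.{u, v} :
    ∃ (ν : Measure (ℕ → Bool)) (_ : IsProbabilityMeasure ν),
      LFinite ν ∧
      ∀ (Ω : Type u) [MeasurableSpace Ω] (μ : Measure Ω) [IsProbabilityMeasure μ]
        (S' : Type v) [MeasurableSpace S'] (X : ℕ → Ω → S') (P : Kernel S' S')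
        [IsMarkovKernel P] (φ : S' → Bool),
        Measurable φ → IsMarkovProc μ X P → IsFiniteRank P →
          ¬ ∀ n : ℕ, μ.map (fun ω (i : Fin n) => φ (X i ω)) =
            ν.map (fun y (i : Fin n) => y i) :=
  ⟨nu, inferInstance, fin_L, fun _ _ _ _ _ _ _ _ _ _ hφ hX hP hlaw =>
    not_repr hφ hX hP hlaw⟩

end Pool.Agent.Results.MP_d5803c_pr.Counterexample
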